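import Pool.Agent.Helper48_LPY.Stmts

/-!
# LPY module P1M: the numbers of Phase I

The proof is the one of module P1N of squad LAX (helper20).
-/

set_option autoImplicit false

namespace Pool.Agent.LPY.H50

open Finset

lemma t_bounds : (0:ℝ) < √2 ∧ √2 * √2 = 2 ∧ (1.414 : ℝ) ≤ √2 ∧ √2 ≤ 1.4143 := by
  refine ⟨by positivity, Real.mul_self_sqrt (by norm_num), ?_, ?_⟩
  · apply Real.le_sqrt_of_sq_le; norm_num
  · apply Real.sqrt_le_iff.2
    constructor <;> norm_num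

lemma pow_eq (i : ℕ) : (2:ℝ) ^ i = (√2 ^ i) * (√2 ^ i) := by
  rw [← mul_pow, Real.mul_self_sqrt (by norm_num)]

lemma geo (n : ℕ) : ∑ j ∈ range n, ((√2)⁻¹ : ℝ) ^ j ≤ 3.5 := by
  obtain ⟨h0, h1, h2, h3⟩ := t_bounds
  have hr : ((√2)⁻¹ : ℝ) ≤ 0.7073 := by
    rw [inv_le_comm₀ h0 (by norm_num)]
    refine le_trans ?_ h2
    norm_num
  have hr0 : (0:ℝ) < (√2)⁻¹ := by positivity
  have h4 := geom_sum_eq (show ((√2)⁻¹ : ℝ) ≠ 1 by linarith) n
  rw [h4]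
  have h5 : (0:ℝ) < ((√2)⁻¹) ^ n := by positivity
  rw [div_le_iff_of_neg (by linarith)]
  nlinarith

theorem p1m : P1mStmt := by
  intro k l s I f hp
  obtain ⟨h0, h1, h2, h3⟩ := t_bounds
  set t : ℝ := √2 with ht
  obtain ⟨r, hr⟩ : ∃ r : ℝ, r = √((2:ℝ) ^ l) := ⟨_, rfl⟩
  obtain ⟨G, hG⟩ : ∃ G : ℝ, G = √((2:ℝ) ^ s) := ⟨_, rfl⟩
  have hr0 : 0 < r := by rw [hr]; positivity
  have hG0 : 0 < G := by rw [hG]; positivity
  have hr2 : r * r = (2:ℝ) ^ l := by rw [hr]; exact Real.mul_self_sqrt (by positivity)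
  have hG2 : G * G = (2:ℝ) ^ s := by rw [hG]; exact Real.mul_self_sqrt (by positivity)
  have hrG : 32768 * r ≤ G := by
    have h5 : (32768 * r) * (32768 * r) ≤ G * G := by
      have h6 : (2:ℝ) ^ (l + 30) ≤ (2:ℝ) ^ s := pow_le_pow_right₀ (by norm_num) (by
        have := hp.p2
        omega)
      rw [pow_add] at h6
      rw [hG2]
      calc (32768 * r) * (32768 * r) = (r * r) * 2 ^ 30 := by ring
        _ = (2:ℝ) ^ l * 2 ^ 30 := by rw [hr2]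
        _ ≤ _ := h6
    by_contra hcon
    push Not at hcon
    nlinarith
  have hI : (I : ℝ) ≤ 2 * (r * r) := by
    rw [hr2]
    have := hp.i2
    have h5 : (I : ℝ) ≤ ((2 ^ (l + 1) : ℕ) : ℝ) := by exact_mod_cast this
    push_cast at h5
    rw [pow_succ] at h5
    linarith
  have hk1 : (8:ℝ) * ((2:ℝ) ^ s * 2 ^ I) ≤ k := by
    have h5 : ((2 ^ (s + I + 3) : ℕ) : ℝ) ≤ k := by exact_mod_cast hp.p3
    push_cast at h5
    rw [pow_add, pow_add] at h5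
    linarith
  have hk2 : (k:ℝ) ≤ 16 * ((2:ℝ) ^ s * 2 ^ I) := by
    have h5 : (k:ℝ) ≤ ((2 ^ (s + I + 4) : ℕ) : ℝ) := by exact_mod_cast hp.p3'.le
    push_cast at h5
    rw [pow_add, pow_add] at h5
    linarith
  obtain ⟨a, ha⟩ : ∃ a : ℝ, a = t * G := ⟨_, rfl⟩
  have ha0 : 0 < a := by rw [ha]; positivity
  obtain ⟨δ, hδ⟩ : ∃ δ : ℝ, δ = 1 / (2 * a) := ⟨_, rfl⟩
  have hδ0 : 0 < δ := by rw [hδ]; positivity
  have hδa : 2 * δ * a = 1 := by rw [hδ]; field_simp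
  let S : ℕ → ℝ := fun i => ∑ j ∈ range i, (t⁻¹) ^ j
  have hS0 : ∀ i, 0 ≤ S i := fun i => Finset.sum_nonneg (fun j _ => by positivity)
  have hSs : ∀ i, S (i + 1) = S i + (t⁻¹) ^ i := fun i => Finset.sum_range_succ _ _
  let σ : ℕ → ℝ := fun i => a + i * δ + r * t * S i
  have hσa : ∀ i, a ≤ σ i := by
    intro i
    have e1 : 0 ≤ (i:ℝ) * δ := by positivity
    have e2 : 0 ≤ r * t * S i := mul_nonneg (by positivity) (hS0 i)
    show a ≤ a + i * δ + r * t * S i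
    linarith
  have hσs : ∀ i, σ (i + 1) = σ i + δ + r * t * (t⁻¹) ^ i := by
    intro i
    show a + ((i + 1 : ℕ) : ℝ) * δ + r * t * S (i + 1) = a + i * δ + r * t * S i + δ
      + r * t * (t⁻¹) ^ i
    rw [hSs]
    push_cast
    ring
  have hσI : σ I ≤ 1.5 * G := by
    have e1 : r * t * S I ≤ r * t * 3.5 := mul_le_mul_of_nonneg_left (geo I) (by positivity)
    have e2 : (I:ℝ) * δ ≤ r := by
      have e3 : (I:ℝ) * δ ≤ 2 * (r * r) * δ := mul_le_mul_of_nonneg_right hI hδ0.le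
      have e4 : 2 * (r * r) * δ = r * (2 * δ * r) := by ring
      have e5 : 2 * δ * r ≤ 2 * δ * a := by
        apply mul_le_mul_of_nonneg_left _ (by positivity)
        rw [ha]; nlinarith
      rw [hδa] at e5
      rw [e4] at e3
      nlinarith
    show a + I * δ + r * t * S I ≤ 1.5 * G
    have e6 : r * t * 3.5 ≤ 5 * r := by nlinarith
    rw [ha] at *
    nlinarith
  have hpowt : ∀ i : ℕ, (2:ℝ) ^ i = (t ^ i) * (t ^ i) := pow_eq
  have htinv : ∀ i : ℕ, t ^ i * (t⁻¹) ^ i = 1 := by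
    intro i
    rw [← mul_pow, mul_inv_cancel₀ h0.ne', one_pow]
  refine ⟨fun i => 2 ^ i * (σ i) ^ 2, fun i => (√k * (t⁻¹) ^ (I - i) + 2.5 * r) ^ 2,
    ?_, ?_, ?_, ?_, ?_⟩
  · show 2 * (2:ℝ) ^ s ≤ 2 ^ 0 * (σ 0) ^ 2 + 1
    have e1 : a ^ 2 ≤ (σ 0) ^ 2 := pow_le_pow_left₀ ha0.le (hσa 0) 2
    have e2 : a ^ 2 = 2 * 2 ^ s := by
      rw [ha]
      calc (t * G) ^ 2 = (t * t) * (G * G) := by ring
        _ = _ := by rw [h1, hG2]
    rw [pow_zero]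
    linarith
  · show 2 ^ I * (σ I) ^ 2 + (2:ℝ) ^ (s + I) ≤ k
    have e1 : (σ I) ^ 2 ≤ (1.5 * G) ^ 2 :=
      pow_le_pow_left₀ (ha0.le.trans (hσa I)) hσI 2
    have e2 : (1.5 * G) ^ 2 = 2.25 * 2 ^ s := by
      calc (1.5 * G) ^ 2 = 2.25 * (G * G) := by ring
        _ = _ := by rw [hG2]
    have e3 : (2:ℝ) ^ I * (σ I) ^ 2 ≤ 2 ^ I * (2.25 * 2 ^ s) :=
      mul_le_mul_of_nonneg_left (e1.trans_eq e2) (by positivity)
    rw [pow_add]
    have e4 : (0:ℝ) < 2 ^ s * 2 ^ I := by positivity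
    nlinarith
  · show (k:ℝ) ≤ (√k * (t⁻¹) ^ (I - I) + 2.5 * r) ^ 2
    rw [Nat.sub_self, pow_zero, mul_one]
    have e1 : √(k:ℝ) * √(k:ℝ) = k := Real.mul_self_sqrt (by positivity)
    have e2 : 0 ≤ √(k:ℝ) := Real.sqrt_nonneg _
    nlinarith [mul_nonneg e2 hr0.le, mul_pos hr0 hr0]
  · show (√k * (t⁻¹) ^ (I - 0) + 2.5 * r) ^ 2 ≤ 17 * (2:ℝ) ^ s
    rw [Nat.sub_zero]
    have e1 : √(k:ℝ) * (t⁻¹) ^ I ≤ 4 * G := by
      have e2 : √(k:ℝ) ≤ 4 * G * t ^ I := by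
        apply Real.sqrt_le_iff.2
        refine ⟨by positivity, ?_⟩
        calc (k:ℝ) ≤ 16 * ((2:ℝ) ^ s * 2 ^ I) := hk2
          _ = 16 * ((G * G) * (t ^ I * t ^ I)) := by rw [hG2, hpowt I]
          _ = (4 * G * t ^ I) ^ 2 := by ring
      calc √(k:ℝ) * (t⁻¹) ^ I ≤ (4 * G * t ^ I) * (t⁻¹) ^ I :=
            mul_le_mul_of_nonneg_right e2 (by positivity)
        _ = 4 * G * (t ^ I * (t⁻¹) ^ I) := by ring
        _ = 4 * G := by rw [htinv, mul_one]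
    have e3 : √(k:ℝ) * (t⁻¹) ^ I + 2.5 * r ≤ 4.1 * G := by linarith
    calc (√(k:ℝ) * (t⁻¹) ^ I + 2.5 * r) ^ 2 ≤ (4.1 * G) ^ 2 :=
          pow_le_pow_left₀ (by positivity) e3 2
      _ = 16.81 * (G * G) := by ring
      _ = 16.81 * 2 ^ s := by rw [hG2]
      _ ≤ 17 * 2 ^ s := by
          have : (0:ℝ) < 2 ^ s := by positivity
          linarith
  · intro i hi
    refine ⟨?_, ?_, by positivity, ?_⟩
    · show (2:ℝ) ^ l ≤ 2 ^ (i + 1) * (σ (i + 1)) ^ 2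
      have e1 : a ^ 2 ≤ (σ (i + 1)) ^ 2 := pow_le_pow_left₀ ha0.le (hσa _) 2
      have e2 : r * r ≤ a ^ 2 := by
        have : r ≤ a := by rw [ha]; nlinarith
        nlinarith
      have e3 : (1:ℝ) ≤ 2 ^ (i + 1) := one_le_pow₀ (by norm_num)
      rw [← hr2]
      nlinarith [sq_nonneg a]
    · show 2 ^ i * (σ i) ^ 2 + 2 ^ i ≤ 2 ^ (i + 1) * (σ (i + 1)) ^ 2 / 2
        - √((2:ℝ) ^ l * (2 ^ (i + 1) * (σ (i + 1)) ^ 2))
      have hσ0 : 0 ≤ σ (i + 1) := ha0.le.trans (hσa _)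
      have e1 : √((2:ℝ) ^ l * (2 ^ (i + 1) * (σ (i + 1)) ^ 2)) = r * t ^ (i + 1) * σ (i + 1) := by
        rw [← hr2, hpowt (i + 1)]
        rw [show r * r * (t ^ (i + 1) * t ^ (i + 1) * (σ (i + 1)) ^ 2)
          = (r * t ^ (i + 1) * σ (i + 1)) ^ 2 by ring]
        exact Real.sqrt_sq (by positivity)
      rw [e1]
      have e2 := hσs i
      have e3 : r * t ^ (i + 1) * σ (i + 1) = 2 ^ i * ((r * t * (t⁻¹) ^ i) * σ (i + 1)) := by
        rw [hpowt i]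
        calc r * t ^ (i + 1) * σ (i + 1) = r * t * t ^ i * (1) * σ (i + 1) := by ring
          _ = r * t * t ^ i * (t ^ i * (t⁻¹) ^ i) * σ (i + 1) := by rw [htinv]
          _ = _ := by ring
      rw [e3, pow_succ]
      have e4 : (σ i) ^ 2 + 1 ≤ (σ (i + 1)) ^ 2 - (r * t * (t⁻¹) ^ i) * σ (i + 1) := by
        have e5 : (σ (i + 1)) ^ 2 - (r * t * (t⁻¹) ^ i) * σ (i + 1)
            = σ (i + 1) * (σ i + δ) := by
          have : r * t * (t⁻¹) ^ i = σ (i + 1) - (σ i + δ) := by linarith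
          rw [this]; ring
        rw [e5]
        have e6 : σ i + δ ≤ σ (i + 1) := by
          have : 0 ≤ r * t * (t⁻¹) ^ i := by positivity
          linarith
        have e7 : 0 ≤ σ i + δ := by linarith [hσa i]
        have e8 : (σ i + δ) * (σ i + δ) ≤ σ (i + 1) * (σ i + δ) :=
          mul_le_mul_of_nonneg_right e6 e7
        have e9 : 2 * δ * a ≤ 2 * δ * σ i := mul_le_mul_of_nonneg_left (hσa i) (by positivity)
        nlinarith [sq_nonneg δ]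
      have e10 : (0:ℝ) < 2 ^ i := by positivity
      have e11 := mul_le_mul_of_nonneg_left e4 e10.le
      generalize σ (i + 1) = A at *
      generalize σ i = B at *
      generalize r * t * (t⁻¹) ^ i = C at *
      calc (2:ℝ) ^ i * B ^ 2 + 2 ^ i = 2 ^ i * (B ^ 2 + 1) := by ring
        _ ≤ 2 ^ i * (A ^ 2 - C * A) := e11
        _ = _ := by ring
    · show (√k * (t⁻¹) ^ (I - (i + 1)) + 2.5 * r) ^ 2 / 2
        + √((2:ℝ) ^ l * (√k * (t⁻¹) ^ (I - (i + 1)) + 2.5 * r) ^ 2)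
        ≤ (√k * (t⁻¹) ^ (I - i) + 2.5 * r) ^ 2
      have e1 : I - i = (I - (i + 1)) + 1 := by omega
      obtain ⟨v, hv⟩ : ∃ v : ℝ, v = √(k:ℝ) * (t⁻¹) ^ (I - (i + 1)) := ⟨_, rfl⟩
      have hv0 : 0 ≤ v := by rw [hv]; positivity
      have e0 : √(k:ℝ) * (t⁻¹) ^ (I - i) = v * t⁻¹ := by
        rw [e1, pow_succ, hv]; ring
      rw [e0, ← hv]
      have e2 : √((2:ℝ) ^ l * (v + 2.5 * r) ^ 2) = r * (v + 2.5 * r) := by
        rw [← hr2, show r * r * (v + 2.5 * r) ^ 2 = (r * (v + 2.5 * r)) ^ 2 by ring]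
        exact Real.sqrt_sq (by positivity)
      rw [e2]
      have e3 : t⁻¹ = t / 2 := by
        rw [← h1]
        field_simp
      rw [e3]
      have e4 : (v * (t / 2) + 2.5 * r) ^ 2 = v ^ 2 / 2 + 2.5 * t * (v * r) + 6.25 * r ^ 2 := by
        have : t ^ 2 = 2 := by rw [pow_two]; exact h1
        ring_nf
        rw [this]
        ring
      rw [e4]
      have e5 : 0 ≤ v * r := mul_nonneg hv0 hr0.le
      have e6 : (3.5:ℝ) ≤ 2.5 * t := by linarith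
      have e7 : 3.5 * (v * r) ≤ 2.5 * t * (v * r) := mul_le_mul_of_nonneg_right e6 e5
      have e8 : (v + 2.5 * r) ^ 2 / 2 + r * (v + 2.5 * r)
          = v ^ 2 / 2 + 3.5 * (v * r) + 5.625 * r ^ 2 := by ring
      rw [e8]
      have e9 : 0 ≤ r ^ 2 := sq_nonneg r
      linarith

end Pool.Agent.LPY.H50
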