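import Pool.Agent.Helper48_LPY.Stmts
import Pool.Agent.Helper78_LAX.Par

/-!
# LPY module PAR: the parameters
-/

set_option autoImplicit false

namespace Pool.Agent.LPY.H50

theorem par : ParStmt := by
  refine ⟨2 ^ 165, fun k hk => ?_⟩
  have hk1 : 1 ≤ k := le_trans Nat.one_le_two_pow hk
  have hk0 : (0 : ℝ) < k := by exact_mod_cast hk1
  have hlog0 : 0 ≤ Real.log k := Real.log_nonneg (by exact_mod_cast hk1)
  -- `l`
  have hex : ∃ l : ℕ, 2 * Real.log k + 3 ≤ (2 : ℝ) ^ l := by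
    obtain ⟨l, hl⟩ := pow_unbounded_of_one_lt (2 * Real.log k + 3) (by norm_num : (1 : ℝ) < 2)
    exact ⟨l, hl.le⟩
  classical
  obtain ⟨l, hl, hmin⟩ : ∃ l : ℕ, 2 * Real.log k + 3 ≤ (2 : ℝ) ^ l ∧
      ∀ m < l, ¬ 2 * Real.log k + 3 ≤ (2 : ℝ) ^ m :=
    ⟨Nat.find hex, Nat.find_spec hex, fun m hm => Nat.find_min hex hm⟩
  have hl1 : 1 ≤ l := by
    by_contra h
    have h0 : l = 0 := by omega
    rw [h0, pow_zero] at hl
    linarith
  have hl2 : (2 : ℝ) ^ l ≤ 4 * (Real.log k + 3) := by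
    have h := hmin (l - 1) (by omega)
    push Not at h
    have h2 : (2 : ℝ) ^ l = 2 * 2 ^ (l - 1) := by
      rw [← pow_succ', Nat.sub_add_cancel hl1]
    rw [h2]
    linarith
  -- `K`
  obtain ⟨K, hK⟩ : ∃ K, K = Nat.log 2 k := ⟨_, rfl⟩
  have hK1 : 2 ^ K ≤ k := by
    rw [hK]
    exact Nat.pow_log_le_self 2 (by omega)
  have hK2 : k < 2 ^ (K + 1) := by
    rw [hK]
    exact Nat.lt_pow_succ_log_self (by norm_num) k
  have hK3 : 165 ≤ K := by
    by_contra h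
    have h2 : 2 ^ (K + 1) ≤ 2 ^ 165 := Nat.pow_le_pow_right (by norm_num) (by omega)
    omega
  have hln : Real.log k ≤ K + 1 := by
    have h1 : (k : ℝ) ≤ 2 ^ (K + 1) := by exact_mod_cast hK2.le
    have h2 := Real.log_le_log hk0 h1
    rw [Real.log_pow] at h2
    have h3 : Real.log 2 ≤ 1 := by
      have := Real.log_two_lt_d9
      linarith
    have h4 : ((K + 1 : ℕ) : ℝ) * Real.log 2 ≤ ((K + 1 : ℕ) : ℝ) * 1 :=
      mul_le_mul_of_nonneg_left h3 (by positivity)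
    push_cast at h2 h4
    linarith
  have hKl : (K : ℝ) ≤ 2 * Real.log k := by
    have h1 : ((2 : ℝ)) ^ K ≤ k := by exact_mod_cast hK1
    have h2 := Real.log_le_log (by positivity) h1
    rw [Real.log_pow] at h2
    have h3 : (1 / 2 : ℝ) ≤ Real.log 2 := by
      have := Real.log_two_gt_d9
      linarith
    have h4 : (K : ℝ) * (1 / 2) ≤ (K : ℝ) * Real.log 2 :=
      mul_le_mul_of_nonneg_left h3 (by positivity)
    linarith
  have hK4 : K ≤ 2 ^ l := by
    have h1 : (K : ℝ) ≤ 2 ^ l := by linarith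
    exact_mod_cast h1
  have hlK : 5 * l + 116 ≤ K := by
    by_contra h
    have h2 : (2 : ℝ) ^ l ≤ 4 * K + 16 := by linarith
    have h3 : 2 ^ l ≤ 4 * K + 16 := by exact_mod_cast h2
    have h4 : l - 10 < 2 ^ (l - 10) := Nat.lt_two_pow_self
    have h5 : 2 ^ l = 2 ^ 10 * 2 ^ (l - 10) := by
      rw [← pow_add]
      congr 1
      omega
    have h6 : (2 : ℕ) ^ 10 = 1024 := by norm_num
    rw [h5, h6] at h3
    omega
  have e1 : 2 ^ (l + 1) = 2 * 2 ^ l := by rw [pow_succ]; ring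
  refine ⟨l, 3 * l + 64, K - (3 * l + 64) - 3, K - (3 * l + 64) - 52 - 2 * l,
    ⟨?_, hl2, rfl, ?_, ?_, ?_, ?_, by omega, by omega⟩⟩
  · have h1 : Real.exp (2 * Real.log k + 3) ≤ Real.exp ((2 : ℝ) ^ l) := Real.exp_le_exp.2 hl
    rw [Real.exp_add, mul_comm 2, Real.exp_mul, Real.exp_log hk0] at h1
    have h3 : (k : ℝ) ^ (2 : ℝ) = (k : ℝ) ^ 2 := by
      rw [← Real.rpow_natCast]
      norm_num
    rw [h3] at h1
    have h2 := mul_le_mul_of_nonneg_left Pool.Agent.LAX.H78.exp_three (by positivity :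
      (0 : ℝ) ≤ (k : ℝ) ^ 2)
    linarith
  · rw [show 3 * l + 64 + (K - (3 * l + 64) - 3) + 3 = K by omega]
    exact hK1
  · rw [show 3 * l + 64 + (K - (3 * l + 64) - 3) + 4 = K + 1 by omega]
    exact hK2
  · rw [show 3 * l + 64 + (K - (3 * l + 64) - 52 - 2 * l) + 52 + 2 * l = K by omega]
    exact hK1
  · rw [show 3 * l + 64 + (K - (3 * l + 64) - 52 - 2 * l) + 53 + 2 * l = K + 1 by omega]
    exact hK2

end Pool.Agent.LPY.H50
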